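import Pool.Agent.H.MP_d665d0_pr.B

/-! The full strong law holds for random convex sets of bounded dimension in B-convex spaces. -/

open MeasureTheory ProbabilityTheory Set Metric Filter Topology
open scoped Pointwise BoundedContinuousFunction BigOperators

namespace Pool.Agent.Results.MP_d665d0_pr.Yes

open Pool.Agent.H.MP_d665d0_pr

variable {X : Type} [NormedAddCommGroup X] [NormedSpace ℝ X]

/-- B-convexity -/
def BConvex (X : Type) [NormedAddCommGroup X] [NormedSpace ℝ X] : Prop :=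
  ∃ k : ℕ, 2 ≤ k ∧ ∃ ε > (0 : ℝ), ∀ x : Fin k → X, (∀ i, ‖x i‖ ≤ 1) →
    ∃ s : Fin k → ℝ, (∀ i, s i = 1 ∨ s i = -1) ∧ ‖∑ i, s i • x i‖ ≤ k * (1 - ε)

/-- bounded continuous functions on the dual unit sphere -/
abbrev Z (X : Type) [NormedAddCommGroup X] [NormedSpace ℝ X] : Type := sphere (0 : StrongDual ℝ X) 1 →ᵇ ℝ

/-- `z` is the support function of `A` on the dual unit sphere -/
def Rep (A : Set X) (z : Z X) : Prop :=
  ∀ f : sphere (0 : StrongDual ℝ X) 1, IsLUB (f.1 '' A) (z f)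

/-- nonempty bounded convex sets -/
def BC (A : Set X) : Prop := A.Nonempty ∧ Convex ℝ A ∧ Bornology.IsBounded A

/-- the affine hull of `A` has dimension at most `d` -/
def DimLe (A : Set X) (d : ℕ) : Prop := Module.rank ℝ (affineSpan ℝ A).direction ≤ d

/-- independent Borel measurable, Bochner integrable random vectors with means `r n` -/
def Vec {E Ω : Type} [NormedAddCommGroup E] [NormedSpace ℝ E] [MeasurableSpace Ω] (P : Measure Ω)
    (R : ℕ → Ω → E) (r : ℕ → E) : Prop :=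
  (∀ n, @Measurable _ _ _ (borel _) (R n) ∧ Integrable (R n) P ∧ ∫ ω, R n ω ∂P = r n) ∧
    iIndepFun (m := fun _ => borel _) R P

/-- a uniformly bounded independent sequence of random sets `Ψ n` with expectations `U n` -/
def Sq {Ω : Type} [MeasurableSpace Ω] (P : Measure Ω) (Ψ : ℕ → Ω → Set X) (U : ℕ → Set X) : Prop :=
  (∀ n, BC (U n)) ∧ (∀ n ω, BC (Ψ n ω)) ∧ (∃ M : ℝ, ∀ n ω, ∀ a ∈ Ψ n ω, ‖a‖ ≤ M) ∧
  ∃ (r : ℕ → Z X) (R : ℕ → Ω → Z X), (∀ n, Rep (U n) (r n)) ∧ (∀ n ω, Rep (Ψ n ω) (R n ω)) ∧ Vec P R r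

/-- Minkowski average of the first `n` sets -/
def avg (A : ℕ → Set X) (n : ℕ) : Set X := (n : ℝ)⁻¹ • ∑ i ∈ Finset.range n, A i

theorem result (X : Type) [NormedAddCommGroup X] [NormedSpace ℝ X] [CompleteSpace X] (hX : BConvex X) (d : ℕ)
    (Ω : Type) [MeasurableSpace Ω] (P : Measure Ω) [IsProbabilityMeasure P] (Ψ : ℕ → Ω → Set X) (U : ℕ → Set X)
    (h : Sq P Ψ U) (hd : ∀ n ω, DimLe (Ψ n ω) d) :
    ∀ᵐ ω ∂P, Tendsto (fun n => hausdorffEDist (avg (fun i => Ψ i ω) n) (avg U n)) atTop (𝓝 0) := by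
  obtain ⟨k, hk, ε, hε, hB⟩ := hX
  obtain ⟨μ, hμ0, hμ1, hμ⟩ := type_bound hk hε hB
  obtain ⟨hU, hΨ, ⟨M0, hM0⟩, r, R, hr, hR, hV, hind⟩ := h
  letI : MeasurableSpace (Z X) := borel _
  haveI : BorelSpace (Z X) := ⟨rfl⟩
  set M := max M0 1 with hM
  have hMp : 0 < M := lt_max_of_lt_right one_pos
  have hsub : ∀ n ω, Ψ n ω ⊆ closedBall 0 M := fun n ω a ha =>
    mem_closedBall_zero_iff.2 ((hM0 n ω a ha).trans (le_max_left _ _))
  have hRn : ∀ n ω, ‖R n ω‖ ≤ M := fun n ω => Rp.norm_le (hR n ω) (hΨ n ω).1 (hsub n ω)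
  have hrn : ∀ n, ‖r n‖ ≤ M := fun n => by
    rw [← (hV n).2.2]
    simpa using norm_integral_le_of_norm_le_const (μ := P) (ae_of_all _ (hRn n))
  have key := ae_lim (P := P) (fun n ω => ‖∑ i ∈ Finset.range n, (R i ω - r i)‖) (fun _ _ => norm_nonneg _)
    (fun n => (integrable_finsetSum _ fun i _ => (hV i).2.1.sub (integrable_const _)).norm)
    (L := 2 * M) (C := 2 * (2 * ((d + 1) * (2 ^ d * (2 * M))))) (by positivity) (fun ω m n hmn => by
      rw [← Finset.sum_range_add_sum_Ico _ hmn]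
      refine (norm_add_le _ _).trans (add_le_add le_rfl ((norm_sum_le _ _).trans ?_))
      refine (Finset.sum_le_sum (g := fun _ => 2 * M) fun i _ =>
        (norm_sub_le _ _).trans (by linarith [hRn i ω, hrn i])).trans (le_of_eq ?_)
      rw [Finset.sum_const, Nat.card_Ico, nsmul_eq_mul, Nat.cast_sub hmn, mul_comm])
    hk (by positivity) hμ0 hμ1 (fun s n hn => by
      have := symm (P := P) (fun i : Fin n => R i) (fun i => (hV i).2.1)
        (hind.precomp (g := fun i : Fin n => (i : ℕ)) Fin.val_injective)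
        (fun x => rad_bound (d := d) hMp (hμ s n hn) (fun i => Ψ i (x i)) (fun i => (hΨ _ _).1) (fun i => hsub _ _)
          (fun i => by have := hd i (x i); rwa [DimLe, direction_affineSpan] at this) _ (fun i => hR _ _))
      simp only [fun i => (hV i).2.2] at this
      simp only [Finset.sum_range]
      refine this.trans (le_of_eq ?_)
      ring)
  filter_upwards [key] with ω hω
  have h1 := ENNReal.tendsto_ofReal hω
  rw [ENNReal.ofReal_zero] at h1
  refine tendsto_of_tendsto_of_tendsto_of_le_of_le' tendsto_const_nhds h1 (Eventually.of_forall fun _ => zero_le)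
    ((eventually_gt_atTop 0).mono fun n hn => ?_)
  have hn' : (0 : ℝ) < (n : ℝ)⁻¹ := by positivity
  have hne : ∀ A : ℕ → Set X, (∀ i, (A i).Nonempty) → ∀ m, (∑ i ∈ Finset.range m, A i).Nonempty := by
    intro A hA m
    induction m with
    | zero => exact ⟨0, rfl⟩
    | succ m ih => rw [Finset.sum_range_succ]; exact ih.add (hA m)
  refine (haus_le ((Rp.sum (fun i => hR i ω) n).smul hn') ((Rp.sum hr n).smul hn')
    ((convex_sum _ fun i _ => (hΨ i ω).2.1).smul _) ((convex_sum _ fun i _ => (hU i).2.1).smul _)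
    (hne _ (fun i => (hΨ i ω).1) n).smul_set (hne _ (fun i => (hU i).1) n).smul_set).trans (le_of_eq ?_)
  have e : ((n : ℝ)⁻¹ • ∑ i ∈ Finset.range n, R i ω - (n : ℝ)⁻¹ • ∑ i ∈ Finset.range n, r i : Z X) =
      (n : ℝ)⁻¹ • ∑ i ∈ Finset.range n, (R i ω - r i) := by
    rw [Finset.sum_sub_distrib]; exact (smul_sub _ _ _).symm
  rw [e, norm_smul, Real.norm_of_nonneg hn'.le, div_eq_inv_mul]

end Pool.Agent.Results.MP_d665d0_pr.Yes
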